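import Pool.Agent.Y904.BHX.Grp
import Pool.Agent.Y904.BHX.Mgr

/-!
# Invariant hulls: every family that contains the sets of Hausdorff dimension zero

For every `n ≥ 1`:

* there is a subgroup `K` of `ℝⁿ` of Hausdorff dimension `0` such that `ℝⁿ` is the only set with
  the Baire property which contains `K` and is invariant under the translations by elements
  of `K`;
* there is a meagre set `A` of Hausdorff dimension `0` such that no analytic meagre set which
  contains `A` is invariant under all the translations that preserve `A`.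

So there is no translation-invariant Borel hull on any family of subsets of `ℝⁿ` which contains the
sets of Hausdorff dimension `0` but not `ℝⁿ`, and none on any family of meagre sets which contains
the meagre sets of Hausdorff dimension `0`. The null and the meagre ideal are special cases.
-/

set_option autoImplicit false

open MeasureTheory

namespace Pool.Agent.Results.MP_00b317_lc.HullsEveryIdeal

open Pool.Agent.H341Q.BH Pool.Agent.Y904.BHX

/-- Euclidean space -/
abbrev E (n : ℕ) := EuclideanSpace ℝ (Fin n)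

/-- the coordinates -/
noncomputable abbrev crd (n : ℕ) : E n ≃L[ℝ] (Fin n → ℝ) := EuclideanSpace.equiv (Fin n) ℝ

theorem subgroup_part (n : ℕ) :
    ∃ K : AddSubgroup (E n), dimH (K : Set (E n)) = 0 ∧
      ∀ B : Set (E n), BaireMeasurableSet B → (K : Set (E n)) ⊆ B →
        (∀ h ∈ K, (fun y => y + h) '' B = B) → B = Set.univ := by
  set K : AddSubgroup (E n) := (KD n).comap (crd n).toLinearEquiv.toAddEquiv.toAddMonoidHom with hK
  have hmem : ∀ x : E n, x ∈ K ↔ crd n x ∈ KD n := fun x => Iff.rfl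
  have hKp : (K : Set (E n)) = (crd n) ⁻¹' (KD n : Set (Fin n → ℝ)) := by
    ext x
    exact hmem x
  refine ⟨K, ?_, fun B hB hKB hinv => ?_⟩
  · rw [hKp, ContinuousLinearEquiv.dimH_preimage]
    exact dim_KD n
  · have h1 : (crd n).symm ⁻¹' B = Set.univ := by
      refine coreD _ (hB.preimage (crd n).symm.continuous (crd n).symm.isOpenMap) ?_ ?_
      · intro x hx
        apply hKB
        show crd n ((crd n).symm x) ∈ KD n
        rw [ContinuousLinearEquiv.apply_symm_apply]
        exact hx
      · intro x hx h hh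
        have h2 := hinv ((crd n).symm h) (by
          rw [hmem, ContinuousLinearEquiv.apply_symm_apply]
          exact hh)
        show (crd n).symm (x + h) ∈ B
        rw [map_add, ← h2]
        exact ⟨_, hx, rfl⟩
    rw [Set.eq_univ_iff_forall]
    intro x
    have h2 : crd n x ∈ (crd n).symm ⁻¹' B := by
      rw [h1]
      exact Set.mem_univ _
    rw [Set.mem_preimage, ContinuousLinearEquiv.symm_apply_apply] at h2
    exact h2

theorem meagre_part (n : ℕ) (hn : 1 ≤ n) :
    ∃ A : Set (E n), dimH A = 0 ∧ IsMeagre A ∧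
      ∀ B : Set (E n), AnalyticSet B → IsMeagre B → A ⊆ B →
        ∃ h : E n, (fun y => y + h) '' A = A ∧ (fun y => y + h) '' B ≠ B := by
  set i0 : Fin n := ⟨0, hn⟩
  refine ⟨(crd n) ⁻¹' (AS n i0), ?_, ?_, fun B hB hm hAB => ?_⟩
  · rw [ContinuousLinearEquiv.dimH_preimage]
    exact dim_AS n i0
  · exact (meagre_AS n i0).preimage_of_isOpenMap (crd n).continuous (crd n).isOpenMap
  · by_contra hcon
    push Not at hcon
    refine core3 i0 ((crd n).symm ⁻¹' B) (hB.preimage (crd n).symm.continuous)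
      (hm.preimage_of_isOpenMap (crd n).symm.continuous (crd n).symm.isOpenMap) ?_ ?_
    · intro x hx
      apply hAB
      rw [Set.mem_preimage, ContinuousLinearEquiv.apply_symm_apply]
      exact hx
    · intro x hx μ
      have h1 := hcon ((crd n).symm (Pi.single i0 (hs μ))) (by
        ext y
        rw [Set.mem_image]
        constructor
        · rintro ⟨z, hz, rfl⟩
          rw [Set.mem_preimage, map_add, ContinuousLinearEquiv.apply_symm_apply]
          exact AS_shift hz μ
        · intro hy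
          refine ⟨y - (crd n).symm (Pi.single i0 (hs μ)), ?_, sub_add_cancel _ _⟩
          rw [Set.mem_preimage, map_sub, ContinuousLinearEquiv.apply_symm_apply]
          have h2 := AS_shift hy (-μ)
          rw [hs_neg, Pi.single_neg, ← sub_eq_add_neg] at h2
          exact h2)
      show (crd n).symm (x + Pi.single i0 (hs μ)) ∈ B
      rw [map_add, ← h1]
      exact ⟨_, hx, rfl⟩

/-- sets of Hausdorff dimension zero are null sets -/
theorem null_of_dim (n : ℕ) (hn : 1 ≤ n) (A : Set (E n)) (hA : dimH A = 0) : volume A = 0 := by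
  have h1 : dimH ((crd n) '' A) = 0 := by
    rw [ContinuousLinearEquiv.dimH_image]
    exact hA
  have h2 : volume ((crd n) '' A) = 0 := by
    rw [← hausdorffMeasure_pi_real, Fintype.card_fin]
    have h3 : dimH ((crd n) '' A) < ((n : NNReal) : ENNReal) := by
      rw [h1]
      exact_mod_cast hn
    have h4 := hausdorffMeasure_of_dimH_lt h3
    simpa using h4
  have h5 := (PiLp.volume_preserving_ofLp (Fin n)).quasiMeasurePreserving.preimage_null h2
  refine measure_mono_null ?_ h5
  intro x hx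
  exact ⟨x, hx, rfl⟩

/-- **No translation-invariant hulls.** There is no invariant hull with the Baire property on a
family `I` of subsets of `ℝⁿ` which contains the sets of Hausdorff dimension zero but not `ℝⁿ`, and
no invariant analytic hull on a family `I` of meagre sets which contains the meagre sets of
Hausdorff dimension zero; the hull of a set need only be invariant under the translations which
preserve the set. In particular (the question) there is no translation-invariant Borel hull on the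
null ideal, and none on the meagre ideal. -/
theorem result (n : ℕ) (hn : 1 ≤ n) :
    (∀ I : Set (Set (E n)), (∀ A : Set (E n), dimH A = 0 → A ∈ I) → Set.univ ∉ I →
      ¬ ∃ ψ : Set (E n) → Set (E n),
        (∀ A ∈ I, ψ A ∈ I ∧ A ⊆ ψ A ∧ BaireMeasurableSet (ψ A)) ∧
        ∀ A ∈ I, ∀ x, (fun y => y + x) '' A = A → (fun y => y + x) '' ψ A = ψ A) ∧
    (∀ I : Set (Set (E n)), (∀ A : Set (E n), IsMeagre A → dimH A = 0 → A ∈ I) →
      (∀ A ∈ I, IsMeagre A) →
      ¬ ∃ ψ : Set (E n) → Set (E n),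
        (∀ A ∈ I, ψ A ∈ I ∧ A ⊆ ψ A ∧ AnalyticSet (ψ A)) ∧
        ∀ A ∈ I, ∀ x, (fun y => y + x) '' A = A → (fun y => y + x) '' ψ A = ψ A) ∧
    (∀ I : Set (Set (E n)), I = {A | volume A = 0} ∨ I = {A | IsMeagre A} →
      ¬ ∃ ψ : Set (E n) → Set (E n),
        (∀ A ∈ I, ψ A ∈ I ∧ A ⊆ ψ A ∧ MeasurableSet[borel (E n)] (ψ A)) ∧
        ∀ A ∈ I, ∀ x, ψ ((fun y => y + x) '' A) = (fun y => y + x) '' ψ A) := by
  have h3 : ∀ I : Set (Set (E n)), (∀ A : Set (E n), dimH A = 0 → A ∈ I) → Set.univ ∉ I →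
      ¬ ∃ ψ : Set (E n) → Set (E n),
        (∀ A ∈ I, ψ A ∈ I ∧ A ⊆ ψ A ∧ BaireMeasurableSet (ψ A)) ∧
        ∀ A ∈ I, ∀ x, (fun y => y + x) '' A = A → (fun y => y + x) '' ψ A = ψ A := by
    rintro I hI1 hI2 ⟨ψ, hψ1, hψ2⟩
    obtain ⟨K, hK1, hK2⟩ := subgroup_part n
    obtain ⟨h4, h5, h6⟩ := hψ1 _ (hI1 _ hK1)
    apply hI2
    rw [← hK2 _ h6 h5 fun h hh => hψ2 _ (hI1 _ hK1) h ?_]
    · exact h4
    · ext y
      rw [Set.mem_image]
      constructor
      · rintro ⟨z, hz, rfl⟩
        exact K.add_mem hz hh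
      · intro hy
        exact ⟨y - h, K.sub_mem hy hh, sub_add_cancel _ _⟩
  have h4 : ∀ I : Set (Set (E n)), (∀ A : Set (E n), IsMeagre A → dimH A = 0 → A ∈ I) →
      (∀ A ∈ I, IsMeagre A) →
      ¬ ∃ ψ : Set (E n) → Set (E n),
        (∀ A ∈ I, ψ A ∈ I ∧ A ⊆ ψ A ∧ AnalyticSet (ψ A)) ∧
        ∀ A ∈ I, ∀ x, (fun y => y + x) '' A = A → (fun y => y + x) '' ψ A = ψ A := by
    rintro I hI1 hI2 ⟨ψ, hψ1, hψ2⟩
    obtain ⟨A, hA1, hA2, hA3⟩ := meagre_part n hn
    obtain ⟨h5, h6, h7⟩ := hψ1 _ (hI1 _ hA2 hA1)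
    obtain ⟨h, hh1, hh2⟩ := hA3 _ h7 (hI2 _ h5) h6
    exact hh2 (hψ2 _ (hI1 _ hA2 hA1) h hh1)
  refine ⟨h3, h4, ?_⟩
  rintro I hI ⟨ψ, hψ1, hψ2⟩
  have hst : ∀ A ∈ I, ∀ x, (fun y => y + x) '' A = A → (fun y => y + x) '' ψ A = ψ A := by
    intro A hA x hx
    have h5 := hψ2 A hA x
    rw [hx] at h5
    exact h5.symm
  rcases hI with rfl | rfl
  · refine h3 _ (fun A hA => null_of_dim n hn A hA) ?_ ⟨ψ, fun A hA => ?_, hst⟩
    · show ¬ volume (Set.univ : Set (E n)) = 0
      have : Nonempty (Fin n) := ⟨⟨0, hn⟩⟩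
      exact NeZero.ne _
    · obtain ⟨h5, h6, h7⟩ := hψ1 A hA
      refine ⟨h5, h6, ?_⟩
      rw [← BorelSpace.measurable_eq (α := E n)] at h7
      exact h7.baireMeasurableSet
  · refine h4 _ (fun A hA _ => hA) (fun A hA => hA) ⟨ψ, fun A hA => ?_, hst⟩
    obtain ⟨h5, h6, h7⟩ := hψ1 A hA
    refine ⟨h5, h6, ?_⟩
    rw [← BorelSpace.measurable_eq (α := E n)] at h7
    exact h7.analyticSet

end Pool.Agent.Results.MP_00b317_lc.HullsEveryIdeal
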